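import Pool.Agent.H95.FC.Targets
import Pool.Agent.H51.FM.QZV

/-!
# Row AFRA of the board `fmx_modules`: the angular factor and the metric of the form of a line
-/

set_option autoImplicit false

open MeasureTheory Set Filter NumberField
open Pool.Agent.H31.CN Pool.Agent.H89.FM Pool.Agent.H61.FM Pool.Agent.H89.FC Pool.Agent.H95.FC
open scoped Real nonZeroDivisors Matrix MatrixGroups

namespace Pool.Agent.H4.FC

theorem fra_key (J S a b c V1 V2 W1 W2 : ℂ) (hJ : J ^ 2 = -1) (hS : S ^ 2 = 4 * a * c - b ^ 2)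
    (hd : V1 * W2 - V2 * W1 = 1) :
    2 * (a * V1 ^ 2 + b * V1 * V2 + c * V2 ^ 2) * (2 * a * W1 + W2 * (b + J * S)) =
      (2 * a * V1 + V2 * (b + J * S)) *
        ((2 * a * V1 * W1 + b * (V1 * W2 + V2 * W1) + 2 * c * V2 * W2) + J * S) := by
  linear_combination ((V1 * W2 - V2 * W1) * V2) * hS - ((V1 * W2 - V2 * W1) * V2 * S ^ 2) * hJ +
    (J * S * (2 * a * V1 + b * V2 + J * V2 * S)) * hd

theorem fra_key2 (J S a b c V1 V2 W1 W2 f z z' v1 v2 : ℂ) (hJ : J ^ 2 = -1)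
    (hS : S ^ 2 = 4 * a * c - b ^ 2) (hd : V1 * W2 - V2 * W1 = 1) (ha : a ≠ 0)
    (hA : a * V1 ^ 2 + b * V1 * V2 + c * V2 ^ 2 ≠ 0) (hz : z * (2 * a) = b + J * S)
    (hz' : z' * (2 * (a * V1 ^ 2 + b * V1 * V2 + c * V2 ^ 2)) =
      f * ((2 * a * V1 * W1 + b * (V1 * W2 + V2 * W1) + 2 * c * V2 * W2) + J * S)) :
    (v1 * V1 + f * v2 * W1) + (v1 * V2 + f * v2 * W2) * z = (V1 + V2 * z) * (v1 + v2 * z') := by
  have hk := fra_key J S a b c V1 V2 W1 W2 hJ hS hd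
  have h1 : (2 * a) * (2 * (a * V1 ^ 2 + b * V1 * V2 + c * V2 ^ 2)) ≠ 0 :=
    mul_ne_zero (mul_ne_zero two_ne_zero ha) (mul_ne_zero two_ne_zero hA)
  apply mul_left_cancel₀ h1
  rw [← hz] at hk
  linear_combination (f * v2) * hk - (V1 + V2 * z) * v2 * (2 * a) * hz'

theorem an_num_ne (x y : ℝ) (hy : y ≠ 0) (v : ℤ × ℤ) (hv : v ≠ 0) :
    (v.1 : ℂ) + v.2 * ((x : ℂ) + y * Complex.I) ≠ 0 := by
  intro h
  have h2 := congrArg Complex.im h
  have h1 := congrArg Complex.re h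
  simp at h1 h2
  have h3 : v.2 = 0 := by
    rcases h2 with h2 | h2
    · exact_mod_cast h2
    · exact absurd h2 hy
  have h4 : v.1 = 0 := by
    rw [h3] at h1
    simp at h1
    exact_mod_cast h1
  exact hv (Prod.ext h4 h3)

theorem an_norm (x y : ℝ) (hy : y ≠ 0) (v : ℤ × ℤ) (hv : v ≠ 0) : ‖an x y v‖ = 1 := by
  have h1 : (v.1 : ℂ) + v.2 * ((x : ℂ) - y * Complex.I) =
      (starRingEnd ℂ) ((v.1 : ℂ) + v.2 * ((x : ℂ) + y * Complex.I)) := by
    simp only [map_add, map_mul, map_intCast, Complex.conj_ofReal, Complex.conj_I]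
    ring
  have h2 := an_num_ne x y hy v hv
  unfold Pool.Agent.H89.FC.an
  rw [h1, norm_div, Complex.norm_conj, div_self (norm_ne_zero_iff.2 h2)]

theorem pf_FRA (hFLF : Pool.Agent.H95.FC.T_FLF) : Pool.Agent.H95.FC.T_FRA := by
  intro f Q V W hf hd ha hD
  obtain ⟨h1, h2, -, -, -⟩ := hFLF f Q V W hf hd
  have ha' : (0 : ℝ) < Q.1 := by exact_mod_cast ha
  have hD' : (0 : ℝ) < dsc Q := by exact_mod_cast hD
  have hf' : (0 : ℝ) < f := by exact_mod_cast (by omega : 0 < f)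
  obtain ⟨S, hS⟩ : ∃ S : ℝ, S = Real.sqrt (dsc Q) := ⟨_, rfl⟩
  have hS0 : 0 < S := by rw [hS]; exact Real.sqrt_pos.2 hD'
  have hS2 : S ^ 2 = dsc Q := by rw [hS]; exact Real.sq_sqrt hD'.le
  have hA : 0 < val Q V := by
    have h3 : 4 * Q.1 * val Q V = (2 * Q.1 * V.1 + Q.2.1 * V.2) ^ 2 + dsc Q * V.2 ^ 2 := by
      simp only [val, dsc]
      ring
    have h4 : 0 < (2 * Q.1 * V.1 + Q.2.1 * V.2) ^ 2 + dsc Q * V.2 ^ 2 := by
      by_cases h5 : V.2 = 0
      · have h6 : V.1 ≠ 0 := by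
          intro h6
          simp only [det, h5, h6] at hd
          omega
        have h7 : 2 * Q.1 * V.1 + Q.2.1 * V.2 ≠ 0 := by
          rw [h5, mul_zero, add_zero]
          exact mul_ne_zero (mul_ne_zero two_ne_zero ha.ne') h6
        have h8 := pow_pos (abs_pos.2 h7) 2
        rw [sq_abs] at h8
        have h9 : 0 ≤ dsc Q * V.2 ^ 2 := mul_nonneg hD.le (sq_nonneg _)
        omega
      · have h8 := pow_pos (abs_pos.2 h5) 2
        rw [sq_abs] at h8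
        have h9 := mul_pos hD h8
        have h10 := sq_nonneg (2 * Q.1 * V.1 + Q.2.1 * V.2)
        omega
    rw [← h3] at h4
    exact (mul_pos_iff_of_pos_left (by omega)).1 h4
  have hA' : (0 : ℝ) < val Q V := by exact_mod_cast hA
  have e1 : zy (fl f Q V W) = f * S / (2 * val Q V) := by
    unfold zy
    rw [h2]
    push_cast
    rw [Real.sqrt_mul (by positivity), Real.sqrt_sq hf'.le, ← hS]
    rfl
  have e2 : zx (fl f Q V W) = f * (bl Q V W : ℝ) / (2 * val Q V) := by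
    unfold zx fl
    push_cast
    rfl
  have e3 : zy Q = S / (2 * Q.1) := by rw [hS]; rfl
  have e4 : zx Q = (Q.2.1 : ℝ) / (2 * Q.1) := rfl
  have p1 : 0 < zy Q := by rw [e3]; positivity
  have p2 : 0 < zy (fl f Q V W) := by rw [e1]; positivity
  refine ⟨p1, p2, fun v hv => an_norm _ _ p1.ne' v hv, fun v => ?_, fun v => ?_⟩
  · have hdC : (V.1 : ℂ) * W.2 - V.2 * W.1 = 1 := by
      have h3 : V.1 * W.2 - V.2 * W.1 = 1 := hd
      exact_mod_cast h3
    have hSC : (S : ℂ) ^ 2 = 4 * (Q.1 : ℂ) * Q.2.2 - (Q.2.1 : ℂ) ^ 2 := by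
      have h3 : S ^ 2 = 4 * (Q.1 : ℝ) * Q.2.2 - (Q.2.1 : ℝ) ^ 2 := by
        rw [hS2]
        simp only [dsc]
        push_cast
        ring
      exact_mod_cast h3
    have haC : (Q.1 : ℂ) ≠ 0 := by exact_mod_cast ha.ne'
    have hvC : (val Q V : ℂ) =
        (Q.1 : ℂ) * V.1 ^ 2 + Q.2.1 * V.1 * V.2 + Q.2.2 * V.2 ^ 2 := by
      simp only [val]
      push_cast
      ring
    have hAC : (val Q V : ℂ) ≠ 0 := by exact_mod_cast hA.ne'
    have hbC : (bl Q V W : ℂ) = 2 * (Q.1 : ℂ) * V.1 * W.1 + Q.2.1 * (V.1 * W.2 + V.2 * W.1) +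
        2 * Q.2.2 * V.2 * W.2 := by
      simp only [bl]
      push_cast
      ring
    have key : ∀ J : ℂ, J ^ 2 = -1 →
        ((v.1 : ℂ) * V.1 + f * v.2 * W.1) + ((v.1 : ℂ) * V.2 + f * v.2 * W.2) *
            ((zx Q : ℂ) + zy Q * J) =
          ((V.1 : ℂ) + V.2 * ((zx Q : ℂ) + zy Q * J)) *
            ((v.1 : ℂ) + v.2 * ((zx (fl f Q V W) : ℂ) + zy (fl f Q V W) * J)) := by
      intro J hJ
      refine fra_key2 J S Q.1 Q.2.1 Q.2.2 V.1 V.2 W.1 W.2 f _ _ v.1 v.2 hJ hSC hdC haC ?_ ?_ ?_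
      · rw [← hvC]
        exact hAC
      · rw [e3, e4]
        push_cast
        field_simp
      · rw [← hvC, ← hbC, e1, e2]
        push_cast
        field_simp
    have hc1 : (((io f V W v).1 : ℤ) : ℂ) = (v.1 : ℂ) * V.1 + f * v.2 * W.1 := by
      simp [io]
    have hc2 : (((io f V W v).2 : ℤ) : ℂ) = (v.1 : ℂ) * V.2 + f * v.2 * W.2 := by
      simp [io]
    have k1 := key Complex.I Complex.I_sq
    have k2 := key (-Complex.I) (by rw [neg_sq]; exact Complex.I_sq)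
    simp only [mul_neg, ← sub_eq_add_neg] at k2
    unfold Pool.Agent.H89.FC.an
    rw [hc1, hc2, k1, k2, div_mul_div_comm]
  · have hQZ := Pool.Agent.H51.FM.pf_QZV
    have hD2 : 0 < dsc (fl f Q V W) := by
      rw [h2]
      have : (0 : ℤ) < f := by exact_mod_cast (by omega : 0 < f)
      positivity
    rw [hQZ (fl f Q V W) v hA hD2, hQZ Q (io f V W v) ha hD, h1 v, h2]
    push_cast
    rw [Real.sqrt_mul (by positivity), Real.sqrt_sq hf'.le, div_div]
    ring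

end Pool.Agent.H4.FC
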